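import Pool.Agent.D0H45.PG.Stm

/-! Project PG, module SUM1: every large real number is close to a sum of two square roots of primes. -/

set_option autoImplicit false

namespace Pool.Agent.D0H70.PG

open Finset Filter Pool.Agent.Q240.KS Pool.Agent.D0H45.PG

theorem hit {τ s θ c : ℝ} (hτ : 0 < τ) (hs : τ / 2 ≤ s) (hθ0 : 0 ≤ θ) (hθ : θ ≤ 1 / 2) (hc : 0 < c)
    (hlog : 0 < Real.log (s ^ 2))
    (h : c * (s ^ 2) ^ θ / Real.log (s ^ 2) ≤ (pic (s ^ 2) ((s ^ 2) ^ θ) : ℝ)) :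
    ∃ q : ℕ, q.Prime ∧ s < √(q : ℝ) ∧ √(q : ℝ) - s ≤ τ ^ (2 * θ - 1) := by
  have hs0 : 0 < s := by linarith
  have hpos : 0 < c * (s ^ 2) ^ θ / Real.log (s ^ 2) := by positivity
  have hp : 0 < pic (s ^ 2) ((s ^ 2) ^ θ) := by
    have : (0 : ℝ) < (pic (s ^ 2) ((s ^ 2) ^ θ) : ℝ) := hpos.trans_le h
    exact_mod_cast this
  unfold pic at hp
  obtain ⟨q, hq⟩ := card_pos.1 hp
  rw [mem_filter, mem_Ioc] at hq
  obtain ⟨⟨h1, h2⟩, hqp⟩ := hq
  have h3 : s ^ 2 < q := (Nat.floor_lt (by positivity)).1 h1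
  have h4 : (q : ℝ) ≤ s ^ 2 + (s ^ 2) ^ θ := (Nat.le_floor_iff (by positivity)).1 h2
  have h5 : s < √(q : ℝ) := Real.lt_sqrt_of_sq_lt h3
  refine ⟨q, hqp, h5, ?_⟩
  have h6 : √(q : ℝ) ^ 2 = q := Real.sq_sqrt (Nat.cast_nonneg _)
  have h7 : (√(q : ℝ) - s) * (2 * s) ≤ (s ^ 2) ^ θ := by nlinarith
  have h8 : (s ^ 2) ^ θ = s ^ (2 * θ - 1) * s := by
    rw [← Real.rpow_natCast, ← Real.rpow_mul hs0.le, ← Real.rpow_add_one hs0.ne']
    congr 1
    push_cast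
    ring
  have h10 : s ^ (2 * θ - 1) ≤ (τ / 2) ^ (2 * θ - 1) :=
    Real.rpow_le_rpow_of_nonpos (by positivity) hs (by linarith)
  have h11 : (τ / 2) ^ (2 * θ - 1) = τ ^ (2 * θ - 1) * 2 ^ (1 - 2 * θ) := by
    rw [Real.div_rpow hτ.le (by norm_num), div_eq_mul_inv, ← Real.rpow_neg (by norm_num)]
    congr 2
    ring
  have h12 : (2 : ℝ) ^ (1 - 2 * θ) ≤ 2 := by
    calc (2 : ℝ) ^ (1 - 2 * θ) ≤ 2 ^ (1 : ℝ) :=
          Real.rpow_le_rpow_of_exponent_le (by norm_num) (by linarith)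
      _ = 2 := Real.rpow_one 2
  have h13 : (0 : ℝ) < τ ^ (2 * θ - 1) := Real.rpow_pos_of_pos hτ _
  have h14 : s ^ (2 * θ - 1) ≤ 2 * τ ^ (2 * θ - 1) := by
    rw [h11] at h10
    nlinarith
  rw [h8] at h7
  have h15 : (√(q : ℝ) - s) * 2 ≤ s ^ (2 * θ - 1) := by
    have : ((√(q : ℝ) - s) * 2) * s ≤ s ^ (2 * θ - 1) * s := by nlinarith
    exact le_of_mul_le_mul_right this hs0
  linarith

theorem fiber (F : Finset ℕ) (D : ℝ) (hD : 0 ≤ D) (h : ∀ p ∈ F, ∀ p' ∈ F, |(p : ℝ) - p'| ≤ D) :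
    F.card ≤ ⌊D⌋₊ + 1 := by
  rcases F.eq_empty_or_nonempty with rfl | hne
  · simp
  · set m := F.min' hne with hm
    have hmF : m ∈ F := F.min'_mem hne
    have hsub : F ⊆ Icc m (m + ⌊D⌋₊) := by
      intro p hp
      rw [mem_Icc]
      have h1 : m ≤ p := F.min'_le p hp
      refine ⟨h1, ?_⟩
      have h2 := h p hp m hmF
      have h3 : (p : ℝ) - m ≤ D := (le_abs_self _).trans h2
      have h4 : ((p - m : ℕ) : ℝ) ≤ D := by
        rw [Nat.cast_sub h1]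
        exact h3
      have h5 : p - m ≤ ⌊D⌋₊ := Nat.le_floor h4
      omega
    refine (card_le_card hsub).trans (le_of_eq ?_)
    rw [Nat.card_Icc]
    omega

theorem dist_sq {τ a b : ℝ} (ha0 : 0 ≤ a) (hb0 : 0 ≤ b) (ha : a ≤ τ / 2) (hb : b ≤ τ / 2) :
    |a ^ 2 - b ^ 2| ≤ |(τ - a) ^ 2 - (τ - b) ^ 2| := by
  have e1 : a ^ 2 - b ^ 2 = (a - b) * (a + b) := by ring
  have e2 : (τ - a) ^ 2 - (τ - b) ^ 2 = -((a - b) * (2 * τ - a - b)) := by ring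
  rw [e1, e2, abs_neg, abs_mul, abs_mul]
  apply mul_le_mul_of_nonneg_left _ (abs_nonneg _)
  rw [abs_of_nonneg (by linarith), abs_of_nonneg (by linarith)]
  linarith

theorem t_SUM1 : S_SUM1 := by
  classical
  rintro ⟨b, X₀, hb, hCH⟩ lam e0 c η x₀ S hG hlam he0
  obtain ⟨C, hC⟩ := hG.count
  have hη := hG.η0
  have hη1 := hG.η1
  have hη2 := hG.η2
  obtain ⟨θ, hθ⟩ : ∃ θ : ℝ, θ = 1 - lam - η := ⟨_, rfl⟩
  have hθ0 : 0 < θ := by linarith
  have hθ1 : θ ≤ 1 / 2 := by linarith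
  have hC0 : 0 ≤ C := by
    have := (hC 1 le_rfl).2
    rw [Real.one_rpow, mul_one] at this
    exact (Nat.cast_nonneg _).trans this
  have hev : ∀ᶠ τ : ℝ in atTop, 4 ≤ τ ∧ X₀ ≤ τ ∧ x₀ ≤ τ ∧ Real.log τ ≤ τ ^ η ∧
      64 * C < b * τ ^ (2 * η) := by
    have e1 : ∀ᶠ τ : ℝ in atTop, Real.log τ ≤ τ ^ η := by
      have h1 := (isLittleO_log_rpow_atTop hη).bound one_pos
      filter_upwards [h1, eventually_gt_atTop 0] with τ h2 h3
      rw [one_mul, Real.norm_eq_abs, Real.norm_eq_abs, abs_of_pos (Real.rpow_pos_of_pos h3 _)] at h2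
      exact (le_abs_self _).trans h2
    have e2 : ∀ᶠ τ : ℝ in atTop, 64 * C < b * τ ^ (2 * η) :=
      ((tendsto_rpow_atTop (by positivity : (0 : ℝ) < 2 * η)).const_mul_atTop hb).eventually_gt_atTop _
    filter_upwards [eventually_ge_atTop 4, eventually_ge_atTop X₀, eventually_ge_atTop x₀, e1, e2]
      with τ h1 h2 h3 h4 h5
    exact ⟨h1, h2, h3, h4, h5⟩
  obtain ⟨τ₀, hτ₀⟩ := eventually_atTop.1 hev
  refine ⟨τ₀, fun τ hτ => ?_⟩
  obtain ⟨h4, hX, hx, hl, hbig⟩ := hτ₀ τ hτ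
  have hτ0 : 0 < τ := by linarith
  by_contra hcon
  push Not at hcon
  rw [← hθ] at hcon
  obtain ⟨X, hXd⟩ : ∃ X : ℝ, X = τ ^ 2 / 4 := ⟨_, rfl⟩
  have hXτ : τ ≤ X := by rw [hXd]; nlinarith
  have hX0 : 0 < X := by linarith
  obtain ⟨P, hPd⟩ : ∃ P : Finset ℕ, P = (Ioc ⌊X / 4⌋₊ ⌊X⌋₊).filter Nat.Prime := ⟨_, rfl⟩
  have hPc := hCH X (hX.trans hXτ)
  rw [← hPd] at hPc
  have hP : ∀ p ∈ P, p.Prime ∧ τ / 4 < √(p : ℝ) ∧ √(p : ℝ) ≤ τ / 2 := by
    intro p hp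
    rw [hPd, mem_filter, mem_Ioc] at hp
    obtain ⟨⟨h1, h2⟩, h3⟩ := hp
    have h5 : X / 4 < p := (Nat.floor_lt (by positivity)).1 h1
    have h6 : (p : ℝ) ≤ X := (Nat.le_floor_iff hX0.le).1 h2
    refine ⟨h3, ?_, ?_⟩
    · apply Real.lt_sqrt_of_sq_lt
      rw [hXd] at h5
      nlinarith
    · rw [Real.sqrt_le_left (by positivity)]
      rw [hXd] at h6
      nlinarith
  -- all are poor
  have hnear : ∀ p ∈ P, ∃ t ∈ S, (τ - √(p : ℝ)) ^ 2 ≤ t ∧ t ≤ (τ - √(p : ℝ)) ^ 2 + τ ^ (2 * θ) := by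
    intro p hp
    obtain ⟨hpp, hp1, hp2⟩ := hP p hp
    set s : ℝ := τ - √(p : ℝ) with hs
    have hs1 : τ / 2 ≤ s := by linarith
    have hs2 : s ≤ τ := by linarith
    have hs0 : 0 < s := by linarith
    have hsX : X ≤ s ^ 2 := by rw [hXd]; nlinarith
    have hlog : 0 < Real.log (s ^ 2) := Real.log_pos (by linarith)
    have hpoor : (pic (s ^ 2) ((s ^ 2) ^ θ) : ℝ) < c * (s ^ 2) ^ θ / Real.log (s ^ 2) := by
      by_contra hnp
      rw [not_lt] at hnp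
      obtain ⟨q, hq, hq1, hq2⟩ := hit hτ0 hs1 hθ0.le hθ1 hG.c0 hlog hnp
      have h5 := hcon p q hpp hq (by rw [hs] at hq1; linarith)
      rw [hs] at hq2
      linarith
    have h5 := hG.near (s ^ 2) (by linarith)
    rw [← hθ] at h5
    obtain ⟨t, ht, ht1, ht2⟩ := h5 hpoor
    refine ⟨t, ht, ht1, ht2.trans ?_⟩
    have h6 : (s ^ 2) ^ θ ≤ τ ^ (2 * θ) := by
      have h7 : (s ^ 2) ^ θ = s ^ (2 * θ) := by
        rw [← Real.rpow_natCast, ← Real.rpow_mul hs0.le]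
        norm_num
      rw [h7]
      exact Real.rpow_le_rpow hs0.le hs2 (by positivity)
    linarith
  choose! t htS ht1 ht2 using hnear
  obtain ⟨D, hDd⟩ : ∃ D : ℝ, D = τ ^ (2 * θ) := ⟨_, rfl⟩
  rw [← hDd] at ht2
  have hτ1 : 1 ≤ τ := by linarith
  have hD1 : 1 ≤ D := by
    rw [hDd]
    exact Real.one_le_rpow hτ1 (by positivity)
  have hDτ : D ≤ τ := by
    rw [hDd]
    calc τ ^ (2 * θ) ≤ τ ^ (1 : ℝ) := Real.rpow_le_rpow_of_exponent_le hτ1 (by linarith)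
      _ = τ := Real.rpow_one τ
  have h2τ : 1 ≤ 2 * τ ^ 2 := by nlinarith
  obtain ⟨hfin, hcount⟩ := hC (2 * τ ^ 2) h2τ
  rw [Set.ncard_eq_toFinset_card _ hfin] at hcount
  have hmaps : ∀ p ∈ P, t p ∈ hfin.toFinset := by
    intro p hp
    rw [Set.Finite.mem_toFinset]
    refine ⟨htS p hp, ?_⟩
    obtain ⟨-, hp1, hp2⟩ := hP p hp
    have h5 := ht2 p hp
    have h6 : (τ - √(p : ℝ)) ^ 2 ≤ τ ^ 2 := by
      apply pow_le_pow_left₀ (by linarith) (by linarith)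
    nlinarith
  have hfib : ∀ y ∈ hfin.toFinset, (P.filter fun p => t p = y).card ≤ ⌊D⌋₊ + 1 := by
    intro y _
    apply fiber _ _ (by linarith)
    intro p hp p' hp'
    rw [mem_filter] at hp hp'
    obtain ⟨-, hp1, hp2⟩ := hP p hp.1
    obtain ⟨-, hp1', hp2'⟩ := hP p' hp'.1
    have h5 := dist_sq (Real.sqrt_nonneg (p : ℝ)) (Real.sqrt_nonneg (p' : ℝ)) hp2 hp2'
    rw [Real.sq_sqrt (Nat.cast_nonneg _), Real.sq_sqrt (Nat.cast_nonneg _)] at h5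
    refine h5.trans ?_
    have g1 := ht1 p hp.1
    have g2 := ht2 p hp.1
    have g3 := ht1 p' hp'.1
    have g4 := ht2 p' hp'.1
    rw [hp.2] at g1 g2
    rw [hp'.2] at g3 g4
    rw [abs_le]
    constructor <;> linarith
  have hcard := card_le_mul_card_image_of_maps_to hmaps (⌊D⌋₊ + 1) hfib
  have hcard' : (P.card : ℝ) ≤ (D + 1) * (C * (2 * τ ^ 2) ^ (e0 - η)) := by
    have h5 : (P.card : ℝ) ≤ ((⌊D⌋₊ : ℝ) + 1) * (hfin.toFinset.card : ℝ) := by exact_mod_cast hcard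
    have h6 : (⌊D⌋₊ : ℝ) ≤ D := Nat.floor_le (by linarith)
    refine h5.trans ?_
    exact mul_le_mul (by linarith) hcount (Nat.cast_nonneg _) (by linarith)
  -- numerics
  obtain ⟨w, hw⟩ : ∃ w : ℝ, w = τ ^ (2 * η) := ⟨_, rfl⟩
  have hw0 : 0 < w := by rw [hw]; exact Real.rpow_pos_of_pos hτ0 _
  have hA : (2 * τ ^ 2) ^ (e0 - η) ≤ 2 * τ ^ (2 * (e0 - η)) := by
    rw [Real.mul_rpow (by norm_num) (by positivity), ← Real.rpow_natCast, ← Real.rpow_mul hτ0.le]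
    have h5 : (2 : ℝ) ^ (e0 - η) ≤ 2 := by
      calc (2 : ℝ) ^ (e0 - η) ≤ 2 ^ (1 : ℝ) :=
            Real.rpow_le_rpow_of_exponent_le (by norm_num) (by linarith)
        _ = 2 := Real.rpow_one 2
    have h6 : (0 : ℝ) ≤ τ ^ (((2 : ℕ) : ℝ) * (e0 - η)) := (Real.rpow_pos_of_pos hτ0 _).le
    have h7 : (((2 : ℕ) : ℝ) * (e0 - η)) = 2 * (e0 - η) := by norm_num
    rw [h7] at h6 ⊢
    exact mul_le_mul_of_nonneg_right h5 h6
  have hB : τ ^ (2 * (e0 - η)) * D ≤ τ ^ 2 / w ^ 2 := by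
    rw [hDd, ← Real.rpow_add hτ0]
    have h5 : τ ^ 2 / w ^ 2 = τ ^ (2 - 4 * η) := by
      rw [Real.rpow_sub hτ0, hw, ← Real.rpow_natCast (τ ^ (2 * η)) 2, ← Real.rpow_mul hτ0.le,
        ← Real.rpow_natCast τ 2]
      congr 2
      · push_cast
        ring
    rw [h5]
    apply Real.rpow_le_rpow_of_exponent_le hτ1
    rw [hθ]
    linarith
  have hub : (P.card : ℝ) ≤ 4 * C * (τ ^ 2 / w ^ 2) := by
    have h5 : (D + 1) * (C * (2 * τ ^ 2) ^ (e0 - η)) ≤ (2 * D) * (C * (2 * τ ^ (2 * (e0 - η)))) := by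
      apply mul_le_mul (by linarith) _ (by positivity) (by linarith)
      exact mul_le_mul_of_nonneg_left hA hC0
    have h6 : (2 * D) * (C * (2 * τ ^ (2 * (e0 - η)))) = 4 * C * (τ ^ (2 * (e0 - η)) * D) := by ring
    rw [h6] at h5
    exact (hcard'.trans h5).trans (mul_le_mul_of_nonneg_left hB (by positivity))
  have hlogX : 0 < Real.log X := Real.log_pos (by linarith)
  have hlogX2 : Real.log X ≤ 2 * Real.log τ := by
    have h5 : Real.log X ≤ Real.log (τ ^ 2) := Real.log_le_log hX0 (by rw [hXd]; nlinarith)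
    rw [Real.log_pow] at h5
    exact_mod_cast h5
  have hlogw : Real.log X ^ 2 ≤ 4 * w := by
    have h5 : Real.log X ≤ 2 * τ ^ η := by linarith
    have h6 : Real.log X ^ 2 ≤ (2 * τ ^ η) ^ 2 := pow_le_pow_left₀ hlogX.le h5 2
    have h7 : (2 * τ ^ η) ^ 2 = 4 * w := by
      rw [mul_pow, hw, ← Real.rpow_natCast (τ ^ η) 2, ← Real.rpow_mul hτ0.le]
      congr 1
      · norm_num
      · congr 1
        push_cast
        ring
    rw [← h7]
    exact h6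
  have hlb : b * τ ^ 2 / (16 * w) ≤ (P.card : ℝ) := by
    refine le_trans ?_ hPc
    rw [div_le_div_iff₀ (by positivity) (by positivity), hXd]
    have : b * τ ^ 2 * Real.log (τ ^ 2 / 4) ^ 2 ≤ b * τ ^ 2 * (4 * w) := by
      rw [hXd] at hlogw
      exact mul_le_mul_of_nonneg_left hlogw (by positivity)
    linarith
  have hfinal := hlb.trans hub
  rw [← hw] at hbig
  rw [mul_div_assoc', div_le_div_iff₀ (by positivity) (by positivity)] at hfinal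
  have hpos : 0 < τ ^ 2 * w := by positivity
  have h5 : (b * w) * (τ ^ 2 * w) ≤ (64 * C) * (τ ^ 2 * w) := by nlinarith
  exact absurd (le_of_mul_le_mul_right h5 hpos) (not_le.2 hbig)

end Pool.Agent.D0H70.PG
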